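import Pool.Agent.H88.Cp3

open Pool.Agent.H88.Cp

theorem Pool.Agent.Results.MP_f97503_an.Yes.result
    (K : Type*) [TopologicalSpace K] [CompactSpace K] [T2Space K]
    (H : HasComp {μ : WeakDual ℝ C(K, ℝ) | ‖WeakDual.toStrongDual μ‖ ≤ 1}) :
    HasComp (Set.univ : Set (WeakDual ℝ C(K, ℝ))) ∧ TopologicalSpace.MetrizableSpace K :=
  main H
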